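import Mathlib
import Pool.Agent.W432.PC.Points

set_option autoImplicit false

open Pool.Agent.W432.PC

namespace Pool.Agent.W77.GR

universe u

/-- A finite set of prime ideals contains only finitely many prime numbers. -/
lemma exists_bound_primes {A : Type*} [CommRing A] {N : Set (Ideal A)} (hN : N.Finite)
    (hp : ∀ 𝔫 ∈ N, 𝔫.IsPrime) :
    ∃ P₂ : ℕ, ∀ 𝔫 ∈ N, ∀ p : ℕ, p.Prime → (p : A) ∈ 𝔫 → p ≤ P₂ := by
  classical
  have h1 : ∀ 𝔫 : Ideal A, ∃ B : ℕ, 𝔫 ∈ N → ∀ p : ℕ, p.Prime → (p : A) ∈ 𝔫 → p ≤ B := by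
    intro 𝔫
    by_cases h : ∃ q : ℕ, q.Prime ∧ (q : A) ∈ 𝔫
    · obtain ⟨q, hq, hq𝔫⟩ := h
      refine ⟨q, fun h𝔫 p hp' hp𝔫 => ?_⟩
      by_contra hlt
      rw [not_le] at hlt
      have hco : Nat.Coprime p q := (Nat.coprime_primes hp' hq).mpr hlt.ne'
      have h2 : (1 : A) ∈ 𝔫 := by
        have h3 : (((Nat.gcd p q : ℕ) : ℤ) : A) = ((p * Nat.gcdA p q + q * Nat.gcdB p q : ℤ) : A) :=
          congrArg _ (Nat.gcd_eq_gcd_ab p q)
        rw [hco.gcd_eq_one] at h3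
        push_cast at h3
        rw [h3]
        exact 𝔫.add_mem (𝔫.mul_mem_right _ hp𝔫) (𝔫.mul_mem_right _ hq𝔫)
      exact (hp 𝔫 h𝔫).ne_top ((Ideal.eq_top_iff_one _).mpr h2)
    · push Not at h
      exact ⟨0, fun _ p hp' hp𝔫 => absurd hp𝔫 (h p hp')⟩
  choose B hB using h1
  obtain ⟨P₂, hP₂⟩ := (hN.image B).bddAbove
  exact ⟨P₂, fun 𝔫 h𝔫 p hp' hp𝔫 => (hB 𝔫 h𝔫 p hp' hp𝔫).trans (hP₂ ⟨𝔫, h𝔫, rfl⟩)⟩

/-- A nonzero element of a Noetherian domain lies in a minimal prime over `p` only for finitely many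
prime numbers `p`. -/
lemma exists_bound_minimal {A : Type*} [CommRing A] [IsDomain A] [IsNoetherianRing A] {s : A}
    (hs : s ≠ 0) : ∃ P₂ : ℕ, ∀ p : ℕ, p.Prime → P₂ < p →
      ∀ 𝔮 ∈ (Ideal.span {(p : A)}).minimalPrimes, s ∉ 𝔮 := by
  obtain ⟨P₂, hP₂⟩ := exists_bound_primes
    (Ideal.finite_minimalPrimes_of_isNoetherianRing A (Ideal.span {s})) fun 𝔫 h𝔫 => h𝔫.isPrime
  refine ⟨P₂, fun p hp hlt 𝔮 h𝔮 hs𝔮 => ?_⟩
  have hprime : 𝔮.IsPrime := h𝔮.isPrime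
  obtain ⟨𝔫, h𝔫, hle⟩ := Ideal.exists_minimalPrimes_le (I := Ideal.span {s}) (J := 𝔮)
    ((Ideal.span_singleton_le_iff_mem _).mpr hs𝔮)
  have h𝔫p : 𝔫.IsPrime := h𝔫.isPrime
  have hs𝔫 : s ∈ 𝔫 := (Ideal.span_singleton_le_iff_mem _).mp h𝔫.1.2
  have hp𝔮 : (p : A) ∈ 𝔮 := (Ideal.span_singleton_le_iff_mem _).mp h𝔮.1.2
  rcases hle.eq_or_lt with h | h
  · rw [← h] at hp𝔮
    exact absurd (hP₂ 𝔫 h𝔫 p hp hp𝔮) (by omega)
  · have h1 := Ideal.height_add_one_le_of_lt_of_isPrime h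
    have h2 := Ideal.height_le_one_of_isPrincipal_of_mem_minimalPrimes (Ideal.span {(p : A)}) 𝔮 h𝔮
    have h3 : 𝔫.height + 1 ≤ 0 + 1 := by rw [zero_add]; exact h1.trans h2
    have h4 : 𝔫.height ≤ 0 := (ENat.add_le_add_iff_right ENat.one_ne_top).mp h3
    have h5 := Ideal.height_eq_zero_iff_eq_bot.mp (le_antisymm h4 (zero_le))
    rw [h5, Ideal.mem_bot] at hs𝔫
    exact hs hs𝔫

lemma exists_bound_unit' {A B : Type*} [CommRing A] [Algebra ℤ A] [Algebra.FiniteType ℤ A]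
    [CommRing B] [IsDomain B] (hB : CharZero B) (f : A →+* B) (hf : Function.Surjective f) :
    ∃ P₁ : ℕ, ∀ p : ℕ, p.Prime → P₁ < p → ¬ IsUnit (p : B) := by
  have hcomm : ∀ n : ℤ, f (algebraMap ℤ A n) = algebraMap ℤ B n := by
    intro n
    have h1 : algebraMap ℤ A n = (n : A) := eq_intCast (algebraMap ℤ A) n
    rw [h1, map_intCast, eq_intCast]
  have h1 : Algebra.FiniteType ℤ B :=
    Algebra.FiniteType.of_surjective ({ f with commutes' := hcomm } : A →ₐ[ℤ] B) hf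
  exact exists_bound_unit B

/-- Reduction modulo `p` of a valued field. -/
theorem exists_place {K : Type u} [Field K] [CharZero K] {Γ : Type*}
    [LinearOrderedCommGroupWithZero Γ] (v : Valuation K Γ)
    (hv : ∀ n : ℕ, n ≠ 0 → v (n : K) = 1) (Z : Finset K) (hZ0 : ∀ z ∈ Z, z ≠ 0) :
    ∃ P₁ : ℕ, ∀ p : ℕ, p.Prime → P₁ < p → ∃ (W : ValuationSubring K) (κ : Type u) (_ : Field κ)
      (_ : CharP κ p) (Γ' : Type u) (_ : LinearOrderedCommGroupWithZero Γ') (v' : Valuation κ Γ')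
      (φ : W →+* κ), ∀ z ∈ Z, z⁻¹ ∈ W ∧ ∃ hz : z ∈ W, v z < 1 → v' (φ ⟨z, hz⟩) < 1 := by
  classical
  let Z' : Finset K := Z ∪ Z.image fun z => z⁻¹
  let Z₁ : Finset K := Z'.filter fun z => v z ≤ 1
  have hZ'0 : ∀ z ∈ Z', z ≠ 0 := by
    intro z hz
    rcases Finset.mem_union.mp hz with h | h
    · exact hZ0 z h
    · obtain ⟨y, hy, rfl⟩ := Finset.mem_image.mp h
      exact inv_ne_zero (hZ0 y hy)
  let A : Subalgebra ℤ K := Algebra.adjoin ℤ (Z₁ : Set K)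
  have hZ₁A : ∀ z ∈ Z₁, z ∈ A := fun z hz => Algebra.subset_adjoin hz
  have hAfg : A.FG := Subalgebra.fg_adjoin_finset _
  have hft : Algebra.FiniteType ℤ A := A.fg_iff_finiteType.mp hAfg
  have hnoeth : IsNoetherianRing A := isNoetherianRing_of_fg hAfg
  have hint : ∀ n : ℤ, v (n : K) ≤ 1 := by
    intro n
    rcases Int.natAbs_eq n with h | h
    · rw [h]
      by_cases h0 : n.natAbs = 0
      · rw [h0]; simp
      · rw [Int.cast_natCast, hv _ h0]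
    · rw [h, Int.cast_neg, Valuation.map_neg]
      by_cases h0 : n.natAbs = 0
      · rw [h0]; simp
      · rw [Int.cast_natCast, hv _ h0]
  have hvA : ∀ a ∈ A, v a ≤ 1 := by
    intro a ha
    induction ha using Algebra.adjoin_induction with
    | mem a ha => exact (Finset.mem_filter.mp ha).2
    | algebraMap n =>
      have h1 : algebraMap ℤ K n = (n : K) := eq_intCast (algebraMap ℤ K) n
      rw [h1]
      exact hint n
    | add a b _ _ ha hb => exact (v.map_add _ _).trans (max_le ha hb)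
    | mul a b _ _ ha hb => rw [map_mul]; exact mul_le_one' ha hb
  let P : Ideal A :=
    { carrier := {a | v (a : K) < 1}
      add_mem' := fun {a b} ha hb => lt_of_le_of_lt (v.map_add _ _) (max_lt ha hb)
      zero_mem' := by
        change v ((0 : A) : K) < 1
        rw [ZeroMemClass.coe_zero, map_zero]
        exact zero_lt_one
      smul_mem' := by
        intro c a ha
        change v ((c * a : A) : K) < 1
        rw [MulMemClass.coe_mul, map_mul]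
        exact lt_of_le_of_lt (mul_le_mul' (hvA _ c.2) le_rfl) (by rw [one_mul]; exact ha) }
  have hPmem : ∀ a : A, a ∈ P ↔ v (a : K) < 1 := fun _ => Iff.rfl
  have hPp : P.IsPrime := by
    refine ⟨?_, ?_⟩
    · rw [Ne, Ideal.eq_top_iff_one, hPmem, OneMemClass.coe_one, map_one]
      exact lt_irrefl _
    · intro a b hab
      by_contra hcon
      rw [not_or, hPmem, hPmem, not_lt, not_lt] at hcon
      have h1 := le_antisymm (hvA _ a.2) hcon.1
      have h2 := le_antisymm (hvA _ b.2) hcon.2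
      rw [hPmem, MulMemClass.coe_mul, map_mul, h1, h2, one_mul] at hab
      exact lt_irrefl _ hab
  have hcast : ∀ n : ℕ, (((n : ℕ) : A) : K) = (n : K) := fun n => map_natCast A.val n
  have hDch : CharZero (A ⧸ P) := by
    refine charZero_of_inj_zero fun n hn => ?_
    by_contra hn0
    have h1 : ((n : ℕ) : A) ∈ P := by
      rw [← Ideal.Quotient.eq_zero_iff_mem, map_natCast]
      exact hn
    rw [hPmem, hcast, hv n hn0] at h1
    exact lt_irrefl _ h1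
  obtain ⟨P₁, hP₁⟩ := exists_bound_unit' hDch (Ideal.Quotient.mk P) Ideal.Quotient.mk_surjective
  let s : A := ∏ z : Z₁, ⟨z, hZ₁A z z.2⟩
  have hs : s ≠ 0 := by
    refine Finset.prod_ne_zero_iff.mpr fun z _ h0 => ?_
    exact hZ'0 z (Finset.mem_filter.mp z.2).1 (congrArg Subtype.val h0)
  obtain ⟨P₂, hP₂⟩ := exists_bound_minimal hs
  refine ⟨max P₁ P₂, fun p hp hlt => ?_⟩
  obtain ⟨M, hM, hpM⟩ := exists_max_ideal_of_mem_nonunits
    (hP₁ p hp (lt_of_le_of_lt (le_max_left _ _) hlt))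
  let 𝔮 : Ideal A := M.comap (Ideal.Quotient.mk P)
  have h𝔮 : 𝔮.IsPrime := hM.isPrime.comap _
  have hP𝔮 : P ≤ 𝔮 := by
    intro a ha
    change Ideal.Quotient.mk P a ∈ M
    rw [Ideal.Quotient.eq_zero_iff_mem.mpr ha]
    exact M.zero_mem
  have hp𝔮 : (p : A) ∈ 𝔮 := by
    change Ideal.Quotient.mk P (p : A) ∈ M
    rw [map_natCast]
    exact hpM
  obtain ⟨𝔮', h𝔮'min, hle⟩ := Ideal.exists_minimalPrimes_le (I := Ideal.span {(p : A)}) (J := 𝔮)
    ((Ideal.span_singleton_le_iff_mem _).mpr hp𝔮)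
  have h𝔮' : 𝔮'.IsPrime := h𝔮'min.isPrime
  have hp𝔮' : (p : A) ∈ 𝔮' := (Ideal.span_singleton_le_iff_mem _).mp h𝔮'min.1.2
  have hs𝔮' : s ∉ 𝔮' := hP₂ p hp (lt_of_le_of_lt (le_max_right _ _) hlt) 𝔮' h𝔮'min
  have hz𝔮' : ∀ (z : K) (hz : z ∈ Z₁), (⟨z, hZ₁A z hz⟩ : A) ∉ 𝔮' := by
    intro z hz h
    apply hs𝔮'
    have h1 : s = ⟨z, hZ₁A z hz⟩ * ∏ y ∈ (Finset.univ : Finset Z₁).erase ⟨z, hz⟩,
        (⟨y, hZ₁A y y.2⟩ : A) := by
      change ∏ z : Z₁, (⟨z, hZ₁A z z.2⟩ : A) = _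
      rw [← Finset.mul_prod_erase Finset.univ (fun z : Z₁ => (⟨z, hZ₁A z z.2⟩ : A))
        (Finset.mem_univ (⟨z, hz⟩ : Z₁))]
    rw [h1]
    exact 𝔮'.mul_mem_right _ h
  -- the valuation ring over `𝔮'`
  have hunit : ∀ y : 𝔮'.primeCompl, IsUnit (A.val.toRingHom y) := by
    intro y
    rw [isUnit_iff_ne_zero]
    intro h0
    apply y.2
    have h1 : (y : A) = 0 := Subtype.ext h0
    rw [h1]
    exact 𝔮'.zero_mem
  let f : Localization.AtPrime 𝔮' →+* K := IsLocalization.lift hunit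
  have hf : ∀ a : A, f (algebraMap A _ a) = (a : K) := fun a => IsLocalization.lift_eq hunit a
  obtain ⟨W, hWf, hWloc⟩ := IsLocalRing.exists_factor_valuationRing f
  have hAW : ∀ a : A, (a : K) ∈ W := fun a => by rw [← hf a]; exact hWf _
  have hun : ∀ a : A, a ∉ 𝔮' → ((a : K))⁻¹ ∈ W := by
    intro a ha
    have h1 : IsUnit (algebraMap A (Localization.AtPrime 𝔮') a) :=
      IsLocalization.map_units _ (⟨a, ha⟩ : 𝔮'.primeCompl)
    obtain ⟨b, hb⟩ := h1.exists_right_inv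
    have h2 := congrArg f hb
    rw [map_mul, hf, map_one] at h2
    rw [inv_eq_of_mul_eq_one_right h2]
    exact hWf _
  have hnon : ∀ a : A, a ∈ 𝔮' → IsLocalRing.residue W ⟨a, hAW a⟩ = 0 := by
    intro a ha
    rw [IsLocalRing.residue_eq_zero_iff, IsLocalRing.mem_maximalIdeal, mem_nonunits_iff]
    intro hu
    have h1 : (f.codRestrict W.toSubring hWf) (algebraMap A _ a) = (⟨a, hAW a⟩ : W) :=
      Subtype.ext (hf a)
    have h2 : IsUnit ((f.codRestrict W.toSubring hWf) (algebraMap A _ a)) := by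
      rw [h1]; exact hu
    have h3 := hWloc.map_nonunit _ h2
    have h4 := (IsLocalization.AtPrime.isUnit_to_map_iff (Localization.AtPrime 𝔮') 𝔮' a).mp h3
    exact h4 ha
  have hres : ∀ a : A, IsLocalRing.residue W ⟨a, hAW a⟩ = 0 → a ∈ 𝔮' := by
    intro a ha
    by_contra hna
    rw [IsLocalRing.residue_eq_zero_iff, IsLocalRing.mem_maximalIdeal, mem_nonunits_iff] at ha
    apply ha
    have hne : (a : K) ≠ 0 := by
      intro h0
      apply hna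
      have h1 : a = 0 := Subtype.ext h0
      rw [h1]; exact 𝔮'.zero_mem
    exact IsUnit.of_mul_eq_one ⟨((a : K))⁻¹, hun a hna⟩ (Subtype.ext (mul_inv_cancel₀ hne))
  let κ := IsLocalRing.ResidueField W
  let φ : W →+* κ := IsLocalRing.residue W
  have hpκ : ((p : ℕ) : κ) = 0 := by
    have h1 := hnon _ hp𝔮'
    have h2 : (⟨((p : ℕ) : A), hAW _⟩ : W) = ((p : ℕ) : W) := Subtype.ext (by
      rw [hcast]
      exact (map_natCast W.subtype p).symm)
    rw [h2, map_natCast] at h1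
    exact h1
  have hchar : CharP κ p := by
    have h1 := CharP.ringChar_of_prime_eq_zero hp hpκ
    rw [← h1]
    exact ringChar.charP κ
  -- the valuation of the residue field
  let φ₀ : A →+* κ :=
    { toFun := fun a => φ ⟨a, hAW a⟩
      map_one' := map_one φ
      map_mul' := fun a b => map_mul φ ⟨a, hAW a⟩ ⟨b, hAW b⟩
      map_zero' := map_zero φ
      map_add' := fun a b => map_add φ ⟨a, hAW a⟩ ⟨b, hAW b⟩ }
  have hφ₀ : ∀ a, φ₀ a = φ ⟨a, hAW a⟩ := fun _ => rfl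
  let I : Ideal φ₀.range := 𝔮.map φ₀.rangeRestrict
  have hI : I ≠ ⊤ := by
    intro htop
    have h1 : (1 : φ₀.range) ∈ I := by rw [htop]; trivial
    obtain ⟨a, ha, ha1⟩ := (Ideal.mem_map_iff_of_surjective φ₀.rangeRestrict
      φ₀.rangeRestrict_surjective).mp h1
    have h2 : φ₀ a = 1 := congrArg Subtype.val ha1
    have h3 : φ₀ (1 - a) = 0 := by rw [map_sub, map_one, h2, sub_self]
    have h4 := hle (hres (1 - a) h3)
    have h5 : (1 : A) ∈ 𝔮 := by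
      have := 𝔮.add_mem h4 ha
      rwa [sub_add_cancel] at this
    exact h𝔮.ne_top ((Ideal.eq_top_iff_one _).mpr h5)
  obtain ⟨V, hV1, hV2⟩ := Ideal.image_subset_nonunits_valuationSubring I hI
  refine ⟨W, κ, inferInstance, hchar, V.ValueGroup, inferInstance, V.valuation, φ, ?_⟩
  intro z hz
  have hzZ' : z ∈ Z' := Finset.mem_union_left _ hz
  have hzZ'' : z⁻¹ ∈ Z' := Finset.mem_union_right _ (Finset.mem_image.mpr ⟨z, hz, rfl⟩)
  have hz0 := hZ0 z hz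
  by_cases hvz : v z ≤ 1
  · have hz₁ : z ∈ Z₁ := Finset.mem_filter.mpr ⟨hzZ', hvz⟩
    refine ⟨hun ⟨z, hZ₁A z hz₁⟩ (hz𝔮' z hz₁), hAW ⟨z, hZ₁A z hz₁⟩, fun hlt' => ?_⟩
    have h1 : (⟨z, hZ₁A z hz₁⟩ : A) ∈ 𝔮 := hP𝔮 ((hPmem _).mpr hlt')
    have h2 := hV2 ⟨φ₀.rangeRestrict ⟨z, hZ₁A z hz₁⟩, Ideal.mem_map_of_mem _ h1, rfl⟩
    exact V.mem_nonunits_iff.mp h2
  · rw [not_le] at hvz
    have hvz' : v z⁻¹ ≤ 1 := by
      rw [map_inv₀]
      exact inv_le_one_of_one_le₀ hvz.le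
    have hz₁ : z⁻¹ ∈ Z₁ := Finset.mem_filter.mpr ⟨hzZ'', hvz'⟩
    have h1 := hun ⟨z⁻¹, hZ₁A _ hz₁⟩ (hz𝔮' _ hz₁)
    rw [show ((⟨z⁻¹, hZ₁A _ hz₁⟩ : A) : K) = z⁻¹ from rfl, inv_inv] at h1
    refine ⟨hAW ⟨z⁻¹, hZ₁A _ hz₁⟩, h1, fun hlt' => absurd hlt' (not_lt.mpr hvz.le)⟩

end Pool.Agent.W77.GR
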