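import Mathlib
import Pool.Agent.W432.FD.Sys
import Pool.Agent.W432.FD.Descend
import Pool.Agent.W77.GR.Gauss

set_option autoImplicit false

open Polynomial Finset
open Pool.Agent.W432.PC Pool.Agent.W432.FD

namespace Pool.Agent.W77.GR

section

variable {κ : Type*} [Field κ]

lemma alg_ne {q : κ[X]} (hq : q ≠ 0) : algebraMap κ[X] (RatFunc κ) q ≠ 0 := by
  rw [Ne, map_eq_zero_iff _ (IsFractionRing.injective κ[X] (RatFunc κ))]
  exact hq

lemma clear_rat {ι : Type*} (s : Finset ι) (a : ι → RatFunc κ) :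
    ∃ q : κ[X], q ≠ 0 ∧ ∃ α : ι → κ[X], ∀ t ∈ s,
      algebraMap κ[X] (RatFunc κ) q * a t = algebraMap κ[X] (RatFunc κ) (α t) := by
  classical
  obtain ⟨q, hq⟩ := IsLocalization.exist_integer_multiples (nonZeroDivisors κ[X]) s a
  have h1 : ∀ t, ∃ α : κ[X], t ∈ s →
      algebraMap κ[X] (RatFunc κ) q * a t = algebraMap κ[X] (RatFunc κ) α := by
    intro t
    by_cases ht : t ∈ s
    · obtain ⟨α, hα⟩ := hq t ht
      refine ⟨α, fun _ => ?_⟩
      rw [hα, Algebra.smul_def]
    · exact ⟨0, fun h => absurd h ht⟩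
  choose α hα using h1
  exact ⟨q, nonZeroDivisors.ne_zero q.2, α, hα⟩

/-- The bound for the coefficients of the minimal relation. -/
theorem kappa_bound {Γ : Type*} [LinearOrderedCommGroupWithZero Γ] (v : Valuation κ Γ) {N : ℕ}
    {T : κ[X]} (hT : T ≠ 0) {M : Matrix (Fin N) (Fin N) κ[X]} (l : Fin N) (n : ℕ)
    (α : ℕ → κ[X]) {q q₂ : κ[X]} (hq : q ≠ 0) (hq₂ : q₂ ≠ 0)
    (hrel : ∀ j, q * QQ T M (n + 1) j l =
      ∑ t ∈ range (n + 1), α t * T ^ (n + 1 - t) * QQ T M t j l)
    (β : ℕ → Fin N → κ[X]) (hβ : ∀ s ∈ range (n + 1), ∀ t ∈ range (n + 1),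
      ∑ j, β s j * QQ T M t j l = if s = t then q₂ else 0)
    {N' : ℕ} (hN : ∀ j, QQ T M N' j l = 0) : ∀ t ∈ range (n + 1), vgs v (α t) ≤ vgs v q := by
  classical
  have ht := alg_ne hT
  have hq' := alg_ne hq
  have hq₂' := alg_ne hq₂
  set m : Fin N → RatFunc κ := Pi.single l 1 with hm
  have hit : ∀ (i : ℕ) (j : Fin N), (algebraMap κ[X] (RatFunc κ) T) ^ i * (conn T M)^[i] m j =
      algebraMap κ[X] (RatFunc κ) (QQ T M i j l) := fun i j => conn_iterate hT l i j
  have hR : (conn T M)^[n + 1] m = ∑ t ∈ range (n + 1),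
      (algebraMap κ[X] (RatFunc κ) (α t) / algebraMap κ[X] (RatFunc κ) q) • (conn T M)^[t] m := by
    funext j
    have h1 := congrArg (algebraMap κ[X] (RatFunc κ)) (hrel j)
    rw [map_mul, ← hit, map_sum] at h1
    have h2 : algebraMap κ[X] (RatFunc κ) q * (algebraMap κ[X] (RatFunc κ) T ^ (n + 1)) ≠ 0 :=
      mul_ne_zero hq' (pow_ne_zero _ ht)
    apply mul_left_cancel₀ h2
    rw [mul_assoc, h1, Finset.sum_apply, Finset.mul_sum]
    refine Finset.sum_congr rfl fun t htr => ?_
    rw [map_mul, map_mul, map_pow, ← hit, Pi.smul_apply, smul_eq_mul]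
    have h3 : n + 1 = (n + 1 - t) + t := by rw [mem_range] at htr; omega
    have h4 : algebraMap κ[X] (RatFunc κ) T ^ (n + 1) =
        algebraMap κ[X] (RatFunc κ) T ^ (n + 1 - t) * algebraMap κ[X] (RatFunc κ) T ^ t := by
      rw [← pow_add, ← h3]
    rw [h4]
    field_simp
  have hli : ∀ c : ℕ → RatFunc κ, ∑ t ∈ range (n + 1), c t • (conn T M)^[t] m = 0 →
      ∀ t ∈ range (n + 1), c t = 0 := by
    intro c hc s hs
    have h1 : ∀ t ∈ range (n + 1), ∑ j, algebraMap κ[X] (RatFunc κ) (β s j) *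
        (conn T M)^[t] m j = if s = t then algebraMap κ[X] (RatFunc κ) q₂ /
          algebraMap κ[X] (RatFunc κ) T ^ t else 0 := by
      intro t htr
      have h2 := congrArg (algebraMap κ[X] (RatFunc κ)) (hβ s hs t htr)
      rw [map_sum] at h2
      have h3 : ∑ j, algebraMap κ[X] (RatFunc κ) (β s j) * (conn T M)^[t] m j =
          (algebraMap κ[X] (RatFunc κ) T ^ t)⁻¹ *
            ∑ j, algebraMap κ[X] (RatFunc κ) (β s j * QQ T M t j l) := by
        rw [Finset.mul_sum]
        refine Finset.sum_congr rfl fun j _ => ?_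
        rw [map_mul, ← hit]
        field_simp
      rw [h3, h2]
      by_cases hst : s = t
      · rw [if_pos hst, if_pos hst, div_eq_inv_mul]
      · rw [if_neg hst, if_neg hst, map_zero, mul_zero]
    have h2 : ∑ j, algebraMap κ[X] (RatFunc κ) (β s j) *
        (∑ t ∈ range (n + 1), c t • (conn T M)^[t] m) j = 0 := by
      rw [hc]
      simp
    simp only [Finset.sum_apply, Pi.smul_apply, smul_eq_mul, Finset.mul_sum] at h2
    rw [Finset.sum_comm] at h2
    have h3 : ∀ t ∈ range (n + 1), ∑ j, algebraMap κ[X] (RatFunc κ) (β s j) *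
        (c t * (conn T M)^[t] m j) = if s = t then c t * (algebraMap κ[X] (RatFunc κ) q₂ /
          algebraMap κ[X] (RatFunc κ) T ^ t) else 0 := by
      intro t htr
      have h4 : ∑ j, algebraMap κ[X] (RatFunc κ) (β s j) * (c t * (conn T M)^[t] m j) =
          c t * ∑ j, algebraMap κ[X] (RatFunc κ) (β s j) * (conn T M)^[t] m j := by
        rw [Finset.mul_sum]
        refine Finset.sum_congr rfl fun j _ => ?_
        ring
      rw [h4, h1 t htr]
      by_cases hst : s = t
      · rw [if_pos hst, if_pos hst]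
      · rw [if_neg hst, if_neg hst, mul_zero]
    rw [Finset.sum_congr rfl h3, Finset.sum_ite_eq, if_pos hs] at h2
    exact (mul_eq_zero.mp h2).resolve_right (div_ne_zero hq₂' (pow_ne_zero _ ht))
  have hN' : (conn T M)^[N'] m = 0 := by
    funext j
    have h1 := hit N' j
    rw [hN, map_zero] at h1
    exact (mul_eq_zero.mp h1).resolve_left (pow_ne_zero _ ht)
  intro t htr
  have h1 := coeff_le_one (vgauss v) (dl := fun f => ddx κ f) (D := conn T M) (conn_add T M)
    (conn_smul T M) (vgauss_ddx_le v) hli hR hN' t htr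
  rw [map_div₀, vgauss_algebraMap, vgauss_algebraMap] at h1
  have h2 : 0 < vgs v q := lt_of_le_of_ne zero_le (vgs_ne_zero v hq).symm
  rwa [div_le_one₀ h2] at h1

/-- The minimal relation in polynomial form. -/
theorem exists_rel {N : ℕ} {T : κ[X]} (hT : T ≠ 0) (M : Matrix (Fin N) (Fin N) κ[X])
    (l : Fin N) : ∃ (n : ℕ) (α : ℕ → κ[X]) (q q₂ : κ[X]) (β : ℕ → Fin N → κ[X]),
      q ≠ 0 ∧ q₂ ≠ 0 ∧
      (∀ j, q * QQ T M (n + 1) j l =
        ∑ t ∈ range (n + 1), α t * T ^ (n + 1 - t) * QQ T M t j l) ∧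
      (∀ s ∈ range (n + 1), ∀ t ∈ range (n + 1),
        ∑ j, β s j * QQ T M t j l = if s = t then q₂ else 0) := by
  classical
  have ht := alg_ne hT
  set m : Fin N → RatFunc κ := Pi.single l 1 with hm
  have hit : ∀ (i : ℕ) (j : Fin N), (algebraMap κ[X] (RatFunc κ) T) ^ i * (conn T M)^[i] m j =
      algebraMap κ[X] (RatFunc κ) (QQ T M i j l) := fun i j => conn_iterate hT l i j
  have hm0 : m ≠ 0 := by
    intro h0
    have := congrFun h0 l
    rw [hm, Pi.single_eq_same, Pi.zero_apply] at this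
    exact one_ne_zero this
  obtain ⟨n, a, -, hrel, hli⟩ := exists_minimal (L := RatFunc κ) (D := conn T M) hm0
  obtain ⟨q, hq, α, hα⟩ := clear_rat (range (n + 1)) a
  -- the dual functionals
  let y : Fin (n + 1) → (Fin N → RatFunc κ) := fun t => (conn T M)^[t] m
  have hy : LinearIndependent (RatFunc κ) y := by
    rw [Fintype.linearIndependent_iff]
    intro g hg i
    have h3 := hli (fun t => if h : t < n + 1 then g ⟨t, h⟩ else 0) (by
      rw [← hg, Finset.sum_range]
      refine sum_congr rfl fun u _ => ?_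
      simp [u.2, y]) i.val (mem_range.mpr i.2)
    simpa [i.2] using h3
  obtain ⟨G, hG⟩ := LinearMap.exists_extend hy.repr
  have hGy : ∀ t, G (y t) = Finsupp.single t 1 := by
    intro t
    have h1 := LinearMap.congr_fun hG ⟨y t, Submodule.subset_span ⟨t, rfl⟩⟩
    have h2 := hy.repr_eq_single t ⟨y t, Submodule.subset_span ⟨t, rfl⟩⟩ rfl
    exact h1.trans h2
  have hGc : ∀ (s : Fin (n + 1)) (z : Fin N → RatFunc κ),
      G z s = ∑ j, G (Pi.single j 1) s * z j := by
    intro s z
    have h1 : z = ∑ j, z j • (Pi.single j 1 : Fin N → RatFunc κ) := by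
      funext i
      rw [Finset.sum_apply, Finset.sum_eq_single i]
      · simp
      · intro j _ hj
        rw [Pi.smul_apply, Pi.single_eq_of_ne (Ne.symm hj), smul_zero]
      · intro h; exact absurd (Finset.mem_univ i) h
    conv_lhs => rw [h1, map_sum]
    rw [Finsupp.finsetSum_apply]
    refine Finset.sum_congr rfl fun j _ => ?_
    rw [map_smul, Finsupp.smul_apply, smul_eq_mul, mul_comm]
  obtain ⟨q₁, hq₁, β₁, hβ₁⟩ := clear_rat (Finset.univ : Finset (Fin (n + 1) × Fin N))
    (fun sj => G (Pi.single sj.2 1) sj.1)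
  refine ⟨n, α, q, q₁ * T ^ n, fun s j => if h : s < n + 1 then β₁ (⟨s, h⟩, j) * T ^ (n - s) else 0,
    hq, mul_ne_zero hq₁ (pow_ne_zero _ hT), ?_, ?_⟩
  · intro j
    apply IsFractionRing.injective κ[X] (RatFunc κ)
    rw [map_mul, ← hit, map_sum, hrel, Finset.sum_apply, Finset.mul_sum, Finset.mul_sum]
    refine Finset.sum_congr rfl fun t htr => ?_
    rw [Pi.smul_apply, smul_eq_mul, map_mul, map_mul, map_pow, ← hit, ← hα t htr]
    have h3 : n + 1 = (n + 1 - t) + t := by rw [mem_range] at htr; omega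
    have h4 : algebraMap κ[X] (RatFunc κ) T ^ (n + 1) =
        algebraMap κ[X] (RatFunc κ) T ^ (n + 1 - t) * algebraMap κ[X] (RatFunc κ) T ^ t := by
      rw [← pow_add, ← h3]
    rw [h4]
    ring
  · intro s hs t htr
    rw [mem_range] at hs htr
    apply IsFractionRing.injective κ[X] (RatFunc κ)
    rw [map_sum]
    simp only [dif_pos hs]
    have h1 : ∀ j, algebraMap κ[X] (RatFunc κ) (β₁ (⟨s, hs⟩, j) * T ^ (n - s) * QQ T M t j l) =
        algebraMap κ[X] (RatFunc κ) q₁ * algebraMap κ[X] (RatFunc κ) T ^ (n - s) *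
          algebraMap κ[X] (RatFunc κ) T ^ t *
          (G (Pi.single j 1) ⟨s, hs⟩ * y ⟨t, htr⟩ j) := by
      intro j
      rw [map_mul, map_mul, map_pow, ← hit, ← hβ₁ (⟨s, hs⟩, j) (Finset.mem_univ _)]
      change _ = _ * _ * _ * (_ * (conn T M)^[t] m j)
      ring
    rw [Finset.sum_congr rfl fun j _ => h1 j, ← Finset.mul_sum, ← hGc, hGy]
    by_cases hst : s = t
    · subst hst
      rw [if_pos rfl, Finsupp.single_eq_same, mul_one, map_mul, map_pow, mul_assoc, ← pow_add]
      congr 2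
      omega
    · rw [if_neg hst, map_zero, Finsupp.single_eq_of_ne, mul_zero]
      intro h
      apply hst
      exact congrArg Fin.val h
  
end

end Pool.Agent.W77.GR
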