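import Mathlib
import Pool.Agent.W77.GR.Place
import Pool.Agent.W77.GR.Rel

set_option autoImplicit false

open Polynomial Finset
open Pool.Agent.W432.PC Pool.Agent.W432.FD

namespace Pool.Agent.W77.GR

universe u

lemma lift_poly {K : Type*} [Field K] (W : ValuationSubring K) (f : K[X])
    (h : ∀ i, f.coeff i ∈ W) : ∃ fW : W[X], fW.map W.subtype = f := by
  have h1 : f ∈ Polynomial.lifts W.subtype :=
    (Polynomial.lifts_iff_coeff_lifts _).mpr fun i => ⟨⟨f.coeff i, h i⟩, rfl⟩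
  exact (Polynomial.mem_lifts _).mp h1

lemma QQ_map_apply {R S : Type*} [CommRing R] [CommRing S] {r : ℕ} (φ : R →+* S) (T : R[X])
    (M : Matrix (Fin r) (Fin r) R[X]) (i : ℕ) (j l : Fin r) :
    (QQ T M i j l).map φ = QQ (T.map φ) (M.map (mapRingHom φ)) i j l :=
  congrFun (congrFun (QQ_map φ T M i) j) l

theorem transfer {R' K' : Type u} [CommRing R'] [IsDomain R'] [Algebra.FiniteType ℤ R']
    [Field K'] [CharZero K'] [Algebra R' K'] (hinj : Function.Injective (algebraMap R' K'))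
    {Γ : Type*} [LinearOrderedCommGroupWithZero Γ] (v : Valuation K' Γ)
    (hv : ∀ n : ℕ, n ≠ 0 → v (n : K') = 1) {N : ℕ} {T : R'[X]} (hT : T ≠ 0)
    (M : Matrix (Fin N) (Fin N) R'[X]) {Pr : Set ℕ} (hPr : ∀ B : ℕ, ∃ p ∈ Pr, p.Prime ∧ B < p)
    {g : R'} (hg : g ≠ 0)
    (hnil : ∀ p ∈ Pr, p.Prime → ∀ 𝔭 : Ideal R', 𝔭.IsPrime → (p : R') ∈ 𝔭 → g ∉ 𝔭 →
      ∃ N' : ℕ, ∀ j l i, (QQ T M N' j l).coeff i ∈ 𝔭)
    (l : Fin N) (n : ℕ) (α : ℕ → K'[X]) {q q₂ : K'[X]} (hq : q ≠ 0) (hq₂ : q₂ ≠ 0)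
    (hrel : ∀ j, q * QQ (T.map (algebraMap R' K')) (M.map (mapRingHom (algebraMap R' K')))
      (n + 1) j l = ∑ t ∈ range (n + 1), α t * (T.map (algebraMap R' K')) ^ (n + 1 - t) *
        QQ (T.map (algebraMap R' K')) (M.map (mapRingHom (algebraMap R' K'))) t j l)
    (β : ℕ → Fin N → K'[X]) (hβ : ∀ s ∈ range (n + 1), ∀ t ∈ range (n + 1),
      ∑ j, β s j * QQ (T.map (algebraMap R' K')) (M.map (mapRingHom (algebraMap R' K'))) t j l =
        if s = t then q₂ else 0) :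
    ∀ t ∈ range (n + 1), vgs v (α t) ≤ vgs v q := by
  classical
  by_contra! hcon
  obtain ⟨t₁, ht₁, hlt⟩ := hcon
  obtain ⟨i₁, hi₁⟩ := exists_vgs v (α t₁)
  set a₁ : K' := (α t₁).coeff i₁ with ha₁
  have ha₁0 : a₁ ≠ 0 := by
    intro h0
    rw [h0, map_zero] at hi₁
    rw [← hi₁] at hlt
    exact not_lt_zero hlt
  obtain ⟨G, hG⟩ := (Algebra.FiniteType.out : (⊤ : Subalgebra ℤ R').FG)
  let cs : K'[X] → Finset K' := fun f => f.support.image f.coeff
  have hcs : ∀ (f : K'[X]) (i : ℕ), f.coeff i ≠ 0 → f.coeff i ∈ cs f := fun f i hi =>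
    Finset.mem_image.mpr ⟨i, mem_support_iff.mpr hi, rfl⟩
  let Z₀ : Finset K' := G.image (algebraMap R' K') ∪
    {algebraMap R' K' g, algebraMap R' K' T.leadingCoeff} ∪ cs q ∪ cs q₂ ∪
    (range (n + 1)).biUnion (fun t => cs (α t)) ∪
    (range (n + 1) ×ˢ (Finset.univ : Finset (Fin N))).biUnion (fun sj => cs (β sj.1 sj.2)) ∪
    (cs q).image fun y => y / a₁
  have z1 : ∀ r ∈ G, algebraMap R' K' r ∈ Z₀ := fun r hr => by
    have := Finset.mem_image_of_mem (algebraMap R' K') hr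
    simp only [Z₀, Finset.mem_union]
    tauto
  have z2 : algebraMap R' K' g ∈ Z₀ := by
    simp only [Z₀, Finset.mem_union, Finset.mem_insert]
    tauto
  have z3 : algebraMap R' K' T.leadingCoeff ∈ Z₀ := by
    simp only [Z₀, Finset.mem_union, Finset.mem_insert, Finset.mem_singleton]
    tauto
  have z4 : ∀ y ∈ cs q, y ∈ Z₀ := fun y hy => by
    simp only [Z₀, Finset.mem_union]
    tauto
  have z5 : ∀ y ∈ cs q₂, y ∈ Z₀ := fun y hy => by
    simp only [Z₀, Finset.mem_union]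
    tauto
  have z6 : ∀ t ∈ range (n + 1), ∀ y ∈ cs (α t), y ∈ Z₀ := fun t ht y hy => by
    have : y ∈ (range (n + 1)).biUnion (fun t => cs (α t)) := Finset.mem_biUnion.mpr ⟨t, ht, hy⟩
    simp only [Z₀, Finset.mem_union]
    tauto
  have z7 : ∀ s ∈ range (n + 1), ∀ j, ∀ y ∈ cs (β s j), y ∈ Z₀ := fun s hs j y hy => by
    have : y ∈ (range (n + 1) ×ˢ (Finset.univ : Finset (Fin N))).biUnion
        (fun sj => cs (β sj.1 sj.2)) := Finset.mem_biUnion.mpr
      ⟨(s, j), Finset.mem_product.mpr ⟨hs, Finset.mem_univ _⟩, hy⟩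
    simp only [Z₀, Finset.mem_union]
    tauto
  have z8 : ∀ y ∈ cs q, y / a₁ ∈ Z₀ := fun y hy => by
    have : y / a₁ ∈ (cs q).image fun y => y / a₁ := Finset.mem_image_of_mem _ hy
    simp only [Z₀, Finset.mem_union]
    tauto
  clear_value Z₀
  obtain ⟨P₁, hP₁⟩ := exists_place v hv (Z₀.filter fun z => z ≠ 0)
    (fun z hz => (Finset.mem_filter.mp hz).2)
  obtain ⟨p, hpPr, hp, hpP⟩ := hPr P₁
  obtain ⟨W, κ, _, hchar, Γ', _, v', φ, hW⟩ := hP₁ p hp hpP
  have memW : ∀ y ∈ Z₀, y ∈ W := by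
    intro y hy
    by_cases h0 : y = 0
    · rw [h0]; exact W.zero_mem
    · exact (hW y (Finset.mem_filter.mpr ⟨hy, h0⟩)).2.1
  have nz : ∀ y ∈ Z₀, y ≠ 0 → ∀ h : y ∈ W, φ ⟨y, h⟩ ≠ 0 := by
    intro y hy h0 h h1
    have h2 := (hW y (Finset.mem_filter.mpr ⟨hy, h0⟩)).1
    have h3 : (⟨y, h⟩ : W) * ⟨y⁻¹, h2⟩ = 1 := Subtype.ext (mul_inv_cancel₀ h0)
    have h4 := congrArg φ h3
    rw [map_mul, h1, zero_mul, map_one] at h4
    exact zero_ne_one h4
  have vlt : ∀ y ∈ Z₀, y ≠ 0 → v y < 1 → ∀ h : y ∈ W, v' (φ ⟨y, h⟩) < 1 := by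
    intro y hy h0 hvy h
    obtain ⟨-, h2, h3⟩ := hW y (Finset.mem_filter.mpr ⟨hy, h0⟩)
    exact h3 hvy
  have coefW : ∀ f : K'[X], (∀ y ∈ cs f, y ∈ Z₀) → ∀ i, f.coeff i ∈ W := by
    intro f hf i
    by_cases h0 : f.coeff i = 0
    · rw [h0]; exact W.zero_mem
    · exact memW _ (hf _ (hcs f i h0))
  -- the ring homomorphisms
  have hRW : ∀ r : R', algebraMap R' K' r ∈ W := by
    intro r
    have hr : r ∈ Algebra.adjoin ℤ (G : Set R') := by rw [hG]; trivial
    induction hr using Algebra.adjoin_induction with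
    | mem y hy => exact memW _ (z1 y hy)
    | algebraMap m =>
      have h1 : algebraMap ℤ R' m = (m : R') := eq_intCast (algebraMap ℤ R') m
      rw [h1, map_intCast]
      exact intCast_mem W m
    | add y z _ _ h1 h2 => rw [map_add]; exact W.add_mem _ _ h1 h2
    | mul y z _ _ h1 h2 => rw [map_mul]; exact W.mul_mem _ _ h1 h2
  let ψW : R' →+* W :=
    { toFun := fun r => ⟨algebraMap R' K' r, hRW r⟩
      map_one' := Subtype.ext (map_one _)
      map_mul' := fun a b => Subtype.ext (map_mul _ _ _)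
      map_zero' := Subtype.ext (map_zero _)
      map_add' := fun a b => Subtype.ext (map_add _ _ _) }
  have hψW : W.subtype.comp ψW = algebraMap R' K' := RingHom.ext fun _ => rfl
  let ψ : R' →+* κ := φ.comp ψW
  have hsub : Function.Injective W.subtype := Subtype.val_injective
  have hsubP : Function.Injective (Polynomial.map W.subtype) := Polynomial.map_injective _ hsub
  have hQW : ∀ i j, (QQ (T.map ψW) (M.map (mapRingHom ψW)) i j l).map W.subtype =
      QQ (T.map (algebraMap R' K')) (M.map (mapRingHom (algebraMap R' K'))) i j l := by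
    intro i j
    rw [← QQ_map_apply, ← QQ_map_apply, Polynomial.map_map, hψW]
  have hTW : (T.map ψW).map W.subtype = T.map (algebraMap R' K') := by
    rw [Polynomial.map_map, hψW]
  have hQκ : ∀ i j, (QQ (T.map ψW) (M.map (mapRingHom ψW)) i j l).map φ =
      QQ (T.map ψ) (M.map (mapRingHom ψ)) i j l := by
    intro i j
    rw [← QQ_map_apply, ← QQ_map_apply, Polynomial.map_map]
  -- the lifts
  obtain ⟨qW, hqW⟩ := lift_poly W q (coefW q z4)
  obtain ⟨q₂W, hq₂W⟩ := lift_poly W q₂ (coefW q₂ z5)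
  have hαex : ∀ t, ∃ fW : W[X], t ∈ range (n + 1) → fW.map W.subtype = α t := by
    intro t
    by_cases ht : t ∈ range (n + 1)
    · obtain ⟨fW, hfW⟩ := lift_poly W (α t) (coefW _ (z6 t ht))
      exact ⟨fW, fun _ => hfW⟩
    · exact ⟨0, fun h => absurd h ht⟩
  choose αW hαW using hαex
  have hβex : ∀ s j, ∃ fW : W[X], s ∈ range (n + 1) → fW.map W.subtype = β s j := by
    intro s j
    by_cases hs : s ∈ range (n + 1)
    · obtain ⟨fW, hfW⟩ := lift_poly W (β s j) (coefW _ (z7 s hs j))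
      exact ⟨fW, fun _ => hfW⟩
    · exact ⟨0, fun h => absurd h hs⟩
  choose βW hβW using hβex
  have hcoefW : ∀ (f : K'[X]) (fW : W[X]), fW.map W.subtype = f → ∀ (i : ℕ) (h : f.coeff i ∈ W),
      (fW.map φ).coeff i = φ ⟨f.coeff i, h⟩ := by
    intro f fW hf i h
    rw [coeff_map]
    congr 1
    apply Subtype.ext
    change W.subtype (fW.coeff i) = f.coeff i
    rw [← hf, coeff_map]
  have hnzW : ∀ (f : K'[X]) (fW : W[X]), fW.map W.subtype = f → (∀ y ∈ cs f, y ∈ Z₀) → f ≠ 0 →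
      fW.map φ ≠ 0 := by
    intro f fW hf hfZ hf0 h0
    obtain ⟨i, hi⟩ : ∃ i, f.coeff i ≠ 0 := by
      by_contra! h
      exact hf0 (Polynomial.ext fun j => by rw [h j, coeff_zero])
    have h1 := hcoefW f fW hf i (coefW f hfZ i)
    rw [h0, coeff_zero] at h1
    exact nz _ (hfZ _ (hcs f i hi)) hi _ h1.symm
  have hTκ : T.map ψ ≠ 0 := by
    intro h0
    have h1 := congrArg (fun f => f.coeff T.natDegree) h0
    simp only [coeff_map, coeff_zero, coeff_natDegree] at h1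
    refine nz _ z3 ?_ (hRW _) h1
    rw [Ne, map_eq_zero_iff _ hinj]
    exact leadingCoeff_ne_zero.mpr hT
  -- nilpotence
  obtain ⟨N', hN'⟩ := hnil p hpPr hp (RingHom.ker ψ) (RingHom.ker_isPrime ψ) (by
    rw [RingHom.mem_ker, map_natCast]
    exact CharP.cast_eq_zero κ p) (by
    rw [RingHom.mem_ker]
    refine nz _ z2 ?_ (hRW _)
    rw [Ne, map_eq_zero_iff _ hinj]
    exact hg)
  have hNκ : ∀ j, QQ (T.map ψ) (M.map (mapRingHom ψ)) N' j l = 0 := by
    intro j
    rw [← QQ_map_apply]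
    ext i
    rw [coeff_map, coeff_zero]
    exact hN' j l i
  -- the relations
  have hrelκ : ∀ j, qW.map φ * QQ (T.map ψ) (M.map (mapRingHom ψ)) (n + 1) j l =
      ∑ t ∈ range (n + 1), (αW t).map φ * (T.map ψ) ^ (n + 1 - t) *
        QQ (T.map ψ) (M.map (mapRingHom ψ)) t j l := by
    intro j
    have h1 : qW * QQ (T.map ψW) (M.map (mapRingHom ψW)) (n + 1) j l =
        ∑ t ∈ range (n + 1), αW t * (T.map ψW) ^ (n + 1 - t) *
          QQ (T.map ψW) (M.map (mapRingHom ψW)) t j l := by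
      apply hsubP
      rw [Polynomial.map_mul, hqW, hQW, hrel j, Polynomial.map_sum]
      refine Finset.sum_congr rfl fun t ht => ?_
      rw [Polynomial.map_mul, Polynomial.map_mul, Polynomial.map_pow, hαW t ht, hQW, hTW]
    have h2 := congrArg (Polynomial.map φ) h1
    rw [Polynomial.map_mul, hQκ, Polynomial.map_sum] at h2
    rw [h2]
    refine Finset.sum_congr rfl fun t _ => ?_
    rw [Polynomial.map_mul, Polynomial.map_mul, Polynomial.map_pow, hQκ, Polynomial.map_map]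
  have hβκ : ∀ s ∈ range (n + 1), ∀ t ∈ range (n + 1),
      ∑ j, (βW s j).map φ * QQ (T.map ψ) (M.map (mapRingHom ψ)) t j l =
        if s = t then q₂W.map φ else 0 := by
    intro s hs t ht
    have h1 : ∑ j, βW s j * QQ (T.map ψW) (M.map (mapRingHom ψW)) t j l =
        if s = t then q₂W else 0 := by
      apply hsubP
      rw [Polynomial.map_sum]
      have h2 : ∀ j, (βW s j * QQ (T.map ψW) (M.map (mapRingHom ψW)) t j l).map W.subtype =
          β s j * QQ (T.map (algebraMap R' K')) (M.map (mapRingHom (algebraMap R' K'))) t j l := by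
        intro j
        rw [Polynomial.map_mul, hβW s j hs, hQW]
      rw [Finset.sum_congr rfl fun j _ => h2 j, hβ s hs t ht]
      by_cases hst : s = t
      · rw [if_pos hst, if_pos hst, hq₂W]
      · rw [if_neg hst, if_neg hst, Polynomial.map_zero]
    have h2 := congrArg (Polynomial.map φ) h1
    rw [Polynomial.map_sum] at h2
    have h3 : ∀ j, (βW s j * QQ (T.map ψW) (M.map (mapRingHom ψW)) t j l).map φ =
        (βW s j).map φ * QQ (T.map ψ) (M.map (mapRingHom ψ)) t j l := by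
      intro j
      rw [Polynomial.map_mul, hQκ]
    rw [Finset.sum_congr rfl fun j _ => h3 j] at h2
    rw [h2]
    by_cases hst : s = t
    · rw [if_pos hst, if_pos hst]
    · rw [if_neg hst, if_neg hst, Polynomial.map_zero]
  have hfin := kappa_bound v' hTκ l n (fun t => (αW t).map φ) (hnzW q qW hqW z4 hq)
    (hnzW q₂ q₂W hq₂W z5 hq₂) hrelκ (fun s j => (βW s j).map φ) hβκ hNκ t₁ ht₁
  -- the contradiction
  have haZ : a₁ ∈ Z₀ := z6 t₁ ht₁ _ (hcs _ _ ha₁0)
  have haW := memW _ haZ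
  have h1 : v' (φ ⟨a₁, haW⟩) ≤ vgs v' ((αW t₁).map φ) := by
    have h2 := le_vgs v' ((αW t₁).map φ) i₁
    rwa [hcoefW _ _ (hαW t₁ ht₁) i₁ haW] at h2
  obtain ⟨i, hi⟩ := exists_vgs v' (qW.map φ)
  have hφa : 0 < v' (φ ⟨a₁, haW⟩) := lt_of_le_of_ne zero_le
    (Ne.symm ((v'.ne_zero_iff).mpr (nz _ haZ ha₁0 haW)))
  have h2 : v' ((qW.map φ).coeff i) < v' (φ ⟨a₁, haW⟩) := by
    by_cases h0 : q.coeff i = 0
    · have h3 := hcoefW q qW hqW i (coefW q z4 i)
      have h4 : (⟨q.coeff i, coefW q z4 i⟩ : W) = 0 := Subtype.ext h0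
      rw [h3, h4, map_zero, map_zero]
      exact hφa
    · have hyZ := z8 _ (hcs q i h0)
      have hy0 : q.coeff i / a₁ ≠ 0 := div_ne_zero h0 ha₁0
      have hyW := memW _ hyZ
      have hv1 : v (q.coeff i / a₁) < 1 := by
        rw [map_div₀, div_lt_one₀ (lt_of_le_of_ne zero_le
          (Ne.symm ((v.ne_zero_iff).mpr ha₁0))), hi₁]
        exact lt_of_le_of_lt (le_vgs v q i) hlt
      have h3 := vlt _ hyZ hy0 hv1 hyW
      rw [hcoefW q qW hqW i (coefW q z4 i)]
      have h4 : (⟨q.coeff i, coefW q z4 i⟩ : W) = ⟨q.coeff i / a₁, hyW⟩ * ⟨a₁, haW⟩ :=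
        Subtype.ext (div_mul_cancel₀ _ ha₁0).symm
      rw [h4, map_mul, map_mul]
      exact mul_lt_of_lt_one_left hφa h3
  rw [hi] at h2
  exact absurd (lt_of_lt_of_le h2 h1) (not_lt.mpr hfin)

end Pool.Agent.W77.GR
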