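import Mathlib
import Pool.Agent.W77.GR.Transfer
import Pool.Agent.W77.IM.Model
import Pool.Agent.W77.IM.CurvA

set_option autoImplicit false

open Polynomial Finset
open Pool.Agent.W432.PC Pool.Agent.W432.FD Pool.Agent.W77.IM

namespace Pool.Agent.W77.GR

universe u v w

/-- The restriction of the valuation to `K(x)` is the Gauss valuation. -/
lemma gauss_eq {K F : Type*} [Field K] [Field F] (ι : K →+* F) {Γ : Type*}
    [LinearOrderedCommGroupWithZero Γ] (v : Valuation F Γ) (δ : Derivation ℤ F F)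
    (hδι : ∀ c, δ (ι c) = 0) {x : F} (hx : δ x = 1) (hvx : v x ≤ 1)
    (hvn : ∀ n : ℕ, n ≠ 0 → v (n : F) = 1) (hvδ : ∀ f, v (δ f) ≤ v f) (f : K[X]) :
    v (eval₂ ι x f) = vgs (v.comap ι) f := by
  have hder : ∀ f : K[X], δ (eval₂ ι x f) = eval₂ ι x (derivative f) := by
    intro f
    induction f using Polynomial.induction_on' with
    | add f g hf hg => rw [eval₂_add, map_add, hf, hg, derivative_add, eval₂_add]
    | monomial n a =>
      rw [eval₂_monomial, Derivation.leibniz, hδι, smul_zero, add_zero, Derivation.leibniz_pow, hx,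
        derivative_monomial, eval₂_monomial, map_mul, map_natCast]
      simp only [smul_eq_mul, nsmul_eq_mul, mul_one]
      ring
  have hxp : ∀ j : ℕ, v (x ^ j) ≤ 1 := fun j => by
    rw [map_pow]; exact pow_le_one₀ zero_le hvx
  have hle : ∀ (d : ℕ) (f : K[X]), f.natDegree ≤ d → ∀ j, v (ι (f.coeff j)) ≤
      v (eval₂ ι x f) := by
    intro d
    induction d with
    | zero =>
      intro f hf j
      rw [Nat.le_zero] at hf
      rw [eq_C_of_natDegree_eq_zero hf, eval₂_C, coeff_C]
      by_cases h : j = 0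
      · rw [if_pos h]
      · rw [if_neg h, map_zero, map_zero]; exact zero_le
    | succ d ih =>
      intro f hf
      have h1 : ∀ j, v (ι (f.coeff (j + 1))) ≤ v (eval₂ ι x f) := by
        intro j
        have h2 := ih (derivative f) (by
          have := natDegree_derivative_le f
          omega) j
        rw [coeff_derivative, ← hder] at h2
        have h3 : v (ι (f.coeff (j + 1) * ((j : K) + 1))) = v (ι (f.coeff (j + 1))) := by
          have h4 : ι (f.coeff (j + 1) * ((j : K) + 1)) = ι (f.coeff (j + 1)) * ((j + 1 : ℕ) : F) := by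
            push_cast
            rw [map_mul, map_add, map_natCast, map_one]
          rw [h4, map_mul, hvn (j + 1) (Nat.succ_ne_zero j), mul_one]
        rw [h3] at h2
        exact h2.trans (hvδ _)
      intro j
      cases j with
      | succ j => exact h1 j
      | zero =>
        have h2 : ι (f.coeff 0) = eval₂ ι x f -
            ∑ j ∈ range f.natDegree, ι (f.coeff (j + 1)) * x ^ (j + 1) := by
          rw [eval₂_eq_sum_range, Finset.sum_range_succ']
          simp
        rw [h2]
        refine (v.map_sub _ _).trans (max_le le_rfl ?_)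
        refine v.map_sum_le fun j _ => ?_
        rw [map_mul]
        calc v (ι (f.coeff (j + 1))) * v (x ^ (j + 1)) ≤ v (eval₂ ι x f) * 1 :=
              mul_le_mul' (h1 j) (hxp _)
          _ = _ := mul_one _
  apply le_antisymm
  · rw [eval₂_eq_sum_range]
    refine v.map_sum_le fun j _ => ?_
    rw [map_mul]
    calc v (ι (f.coeff j)) * v (x ^ j) ≤ vgs (v.comap ι) f * 1 :=
          mul_le_mul' (le_vgs (v.comap ι) f j) (hxp _)
      _ = _ := mul_one _
  · rw [vgs_le]
    intro j
    exact hle f.natDegree f le_rfl j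

lemma ft_int {A : Type*} [CommRing A] (i : Algebra ℤ A) (h : @Algebra.FiniteType ℤ A _ _ i) :
    @Algebra.FiniteType ℤ A _ _ (Ring.toIntAlgebra A) := by
  have h1 : i = Ring.toIntAlgebra A := Subsingleton.elim _ _
  subst h1
  exact h

/-- Nilpotence of the `p`-curvatures of the lattice `E` at almost all closed points of `Spec R`
whose residue characteristic lies in `P`: every element of `E` is mapped into `𝔪 E` by some power of
`∇`. -/
def NilpotentAt {R F V : Type*} [CommRing R] [Field F] [Algebra R F] [AddCommGroup V]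
    [Module F V] {A : Subalgebra R F} (P : Set ℕ) (nabla : V →+ V) (E : Submodule A V) : Prop :=
  ∃ g : R, g ≠ 0 ∧ ∀ 𝔪 : Ideal R, 𝔪.IsMaximal → g ∉ 𝔪 → ∀ p ∈ P, (p : R) ∈ 𝔪 →
    ∀ e ∈ E, ∃ n : ℕ, nabla^[n] e ∈ 𝔪.map (algebraMap R A) • E

theorem good_reduction {R : Type u} [CommRing R] [IsDomain R] [CharZero R]
    [Algebra.FiniteType ℤ R] {F : Type v} [Field F] [Algebra R F]
    (hRF : Function.Injective (algebraMap R F)) (δ : Derivation R F F) (x : F) (hx : δ x = 1)
    (T : R[X]) (hT : T ≠ 0) {V : Type w} [AddCommGroup V] [Module F V]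
    (nabla : V →+ V) (hnabla : ∀ (f : F) (v : V), nabla (f • v) = δ f • v + f • nabla v)
    (E : Submodule (CoordRing x T R) V) (hfg : E.FG) (hE : ∀ e ∈ E, nabla e ∈ E)
    (hspan : Submodule.span F (E : Set V) = ⊤) {P : Set ℕ} (hP : P.Infinite)
    (hPp : ∀ p ∈ P, p.Prime) (hnil : NilpotentAt P nabla E) {Γ : Type*}
    [LinearOrderedCommGroupWithZero Γ] (v : Valuation F Γ)
    (hvn : ∀ n : ℕ, n ≠ 0 → v (n : F) = 1) (hvx : v x ≤ 1) (hvδ : ∀ f, v (δ f) ≤ v f) :
    ∃ L : Submodule v.integer V, L.FG ∧ (∀ e ∈ L, nabla e ∈ L) ∧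
      Submodule.span F (L : Set V) = ⊤ := by
  classical
  obtain ⟨g, hg, hnil⟩ := hnil
  have hjacZ : IsJacobsonRing ℤ := jac_int
  have hjac : IsJacobsonRing R := isJacobsonRing_of_finiteType (A := ℤ)
  obtain ⟨c, hc, N, k, b, M, lam, hlamR, hlaminj, hbE, hEb, hind, hit, hRP⟩ :=
    exists_model (R₀ := R) (R := R) Function.injective_id hRF (δ.restrictScalars ℤ)
      (fun a => δ.map_algebraMap a) x hx T hT nabla hnabla E hfg hE
  have hTx : (aeval x T : F) ≠ 0 := aeval_ne_zero hRF (δ.restrictScalars ℤ)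
    (fun a => δ.map_algebraMap a) x hx hT
  set R' := Localization.Away c with hR'
  have hle : Submonoid.powers c ≤ nonZeroDivisors R := by
    rw [Submonoid.powers_le]
    exact mem_nonZeroDivisors_of_ne_zero hc
  have hdom : IsDomain R' := IsLocalization.isDomain_localization hle
  have hft : Algebra.FiniteType R R' := inferInstance
  have hinjRR' : Function.Injective (algebraMap R R') := IsLocalization.injective R' hle
  have hjac' : IsJacobsonRing R' := isJacobsonRing_of_finiteType (A := R)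
  have hftZ := ft_int _ (Algebra.FiniteType.trans (R := ℤ) (S := R) (A := R') inferInstance hft)
  set T' : R'[X] := (T ^ k).map (algebraMap R R') with hT'
  have hT'0 : T' ≠ 0 := by
    rw [hT', Ne, Polynomial.map_eq_zero_iff hinjRR']
    exact pow_ne_zero _ hT
  have hlc : T.leadingCoeff ≠ 0 := leadingCoeff_ne_zero.mpr hT
  set g' : R' := algebraMap R R' (g * T.leadingCoeff) with hg'def
  have hg' : g' ≠ 0 := by
    rw [hg'def, Ne, map_eq_zero_iff _ hinjRR']
    exact mul_ne_zero hg hlc
  -- nilpotence at closed points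
  have hmaxQ : ∀ 𝔪' : Ideal R', 𝔪'.IsMaximal → g' ∉ 𝔪' → ∀ p ∈ P, (p : R') ∈ 𝔪' →
      ∀ j l i, (QQ T' M (p * N) j l).coeff i ∈ 𝔪' := by
    intro 𝔪' h𝔪' hgm p hpP hpm j l i
    have hp := hPp p hpP
    have hg1 : g ∉ 𝔪'.under R := by
      intro h
      apply hgm
      rw [hg'def, map_mul]
      exact 𝔪'.mul_mem_right _ h
    have hg2 : algebraMap R R' T.leadingCoeff ∉ 𝔪' := by
      intro h
      apply hgm
      rw [hg'def, map_mul]
      exact 𝔪'.mul_mem_left _ h
    have h𝔪 : (𝔪'.under R).IsMaximal :=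
      ((IsLocalization.isMaximal_iff_isMaximal_disjoint R' c 𝔪').mp h𝔪').1
    let _ : Field (R' ⧸ 𝔪') := Ideal.Quotient.field 𝔪'
    have hpz : ((p : ℕ) : R' ⧸ 𝔪') = 0 := by
      rw [← map_natCast (Ideal.Quotient.mk 𝔪'), Ideal.Quotient.eq_zero_iff_mem]
      exact hpm
    have hrc : ringChar (R' ⧸ 𝔪') = p := CharP.ringChar_of_prime_eq_zero hp hpz
    have hchar : CharP (R' ⧸ 𝔪') p := by
      rw [← hrc]
      exact ringChar.charP _
    have hTθ : T'.map (Ideal.Quotient.mk 𝔪') ≠ 0 := by
      rw [hT', Polynomial.map_map, Polynomial.map_pow]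
      refine pow_ne_zero _ fun h0 => ?_
      have h1 := congrArg (fun q => q.coeff T.natDegree) h0
      simp only [coeff_map, coeff_zero, coeff_natDegree] at h1
      exact hg2 (Ideal.Quotient.eq_zero_iff_mem.mp h1)
    have hpn : PNilp (T'.map (Ideal.Quotient.mk 𝔪'))
        (M.map (mapRingHom (Ideal.Quotient.mk 𝔪'))) := by
      refine pnilp_of hp _ _ fun l => ?_
      obtain ⟨n, hn⟩ := hnil _ h𝔪 hg1 p hpP (by
        change algebraMap R R' (p : R) ∈ 𝔪'
        rwa [map_natCast]) (b l) (hbE l)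
      refine ⟨n, ?_⟩
      funext j
      have h4 := conn_iterate hTθ (M := M.map (mapRingHom (Ideal.Quotient.mk 𝔪'))) l n j
      have h5 : QQ (T'.map (Ideal.Quotient.mk 𝔪')) (M.map (mapRingHom (Ideal.Quotient.mk 𝔪')))
          n j l = 0 := by
        rw [← QQ_map_apply]
        ext i
        rw [coeff_map, coeff_zero]
        exact Ideal.Quotient.eq_zero_iff_mem.mpr (hRP 𝔪' h𝔪' hg2 n l hn j i)
      rw [h5, map_zero, mul_eq_zero] at h4
      exact h4.resolve_left (pow_ne_zero _ (alg_ne hTθ))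
    have h6 := congrFun (congrFun (QQ_eq_zero_of_pnilp hTθ hpn) j) l
    rw [hrc, Matrix.zero_apply, ← QQ_map_apply] at h6
    have h7 := congrArg (fun f => f.coeff i) h6
    simp only [coeff_map, coeff_zero] at h7
    exact Ideal.Quotient.eq_zero_iff_mem.mp h7
  have hprimeQ : ∀ p ∈ P, p.Prime → ∀ 𝔭 : Ideal R', 𝔭.IsPrime → (p : R') ∈ 𝔭 → g' ∉ 𝔭 →
      ∃ N' : ℕ, ∀ j l i, (QQ T' M N' j l).coeff i ∈ 𝔭 := by
    intro p hpP _ 𝔭 h𝔭 hp𝔭 hg𝔭
    refine ⟨p * N, fun j l i => ?_⟩
    have h1 : (QQ T' M (p * N) j l).coeff i * g' ∈ 𝔭.jacobson := by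
      rw [Ideal.jacobson, Ideal.mem_sInf]
      rintro 𝔪' ⟨hle', h𝔪'⟩
      by_cases hgm : g' ∈ 𝔪'
      · exact 𝔪'.mul_mem_left _ hgm
      · exact 𝔪'.mul_mem_right _ (hmaxQ 𝔪' h𝔪' hgm p hpP (hle' hp𝔭) j l i)
    rw [hjac'.out h𝔭.isRadical] at h1
    exact (h𝔭.mem_or_mem h1).resolve_right hg𝔭
  -- the fields
  let K' := FractionRing R'
  have hRK' : Function.Injective (algebraMap R' K') := IsFractionRing.injective R' K'
  have hchR' : CharZero R' := charZero_of_injective_algebraMap hinjRR'
  have hchK' : CharZero K' := charZero_of_injective_algebraMap hRK'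
  let κF : K' →+* F := IsFractionRing.lift (A := R') (K := K') hlaminj
  have hκF : ∀ a, κF (algebraMap R' K' a) = lam a := fun a =>
    IsFractionRing.lift_algebraMap hlaminj a
  have hκFc : κF.comp (algebraMap R' K') = lam := RingHom.ext hκF
  have hδlam : ∀ a : R', δ (lam a) = 0 := by
    intro a
    obtain ⟨y, z, hyz⟩ := IsLocalization.exists_mk'_eq (Submonoid.powers c) a
    have h1 : lam a * algebraMap R F z = algebraMap R F y := by
      rw [← hlamR, ← hlamR, ← map_mul, ← hyz, IsLocalization.mk'_spec]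
    have h2 := congrArg δ h1
    rw [δ.map_algebraMap, Derivation.leibniz, δ.map_algebraMap, smul_zero, zero_add,
      smul_eq_mul] at h2
    refine (mul_eq_zero.mp h2).resolve_left ?_
    rw [map_eq_zero_iff _ hRF]
    exact nonZeroDivisors.ne_zero (hle z.2)
  have hδκ : ∀ a : K', (δ.restrictScalars ℤ) (κF a) = 0 := by
    intro a
    obtain ⟨y, z, hz, hyz⟩ := IsFractionRing.div_surjective (A := R') a
    have hz0 : algebraMap R' K' z ≠ 0 := by
      rw [Ne, map_eq_zero_iff _ hRK']
      exact nonZeroDivisors.ne_zero hz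
    have h1 : a * algebraMap R' K' z = algebraMap R' K' y := by rw [← hyz, div_mul_cancel₀ _ hz0]
    have h2 := congrArg (fun z => δ (κF z)) h1
    simp only [map_mul, Derivation.leibniz, hκF, hδlam, smul_eq_mul, mul_zero, zero_add] at h2
    refine (mul_eq_zero.mp h2).resolve_left ?_
    rw [map_eq_zero_iff _ hlaminj]
    exact nonZeroDivisors.ne_zero hz
  let vK : Valuation K' Γ := v.comap κF
  have hvK : ∀ n : ℕ, n ≠ 0 → vK (n : K') = 1 := by
    intro n hn
    change v (κF (n : K')) = 1
    rw [map_natCast]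
    exact hvn n hn
  have hgauss : ∀ f : K'[X], v (eval₂ κF x f) = vgs vK f := fun f =>
    gauss_eq κF v (δ.restrictScalars ℤ) hδκ hx hvx hvn hvδ f
  have hPr : ∀ B : ℕ, ∃ p ∈ P, p.Prime ∧ B < p := by
    intro B
    obtain ⟨p, hp, hlt⟩ := hP.exists_gt B
    exact ⟨p, hp, hPp p hp, hlt⟩
  have hTK : T'.map (algebraMap R' K') ≠ 0 := by
    rw [Ne, Polynomial.map_eq_zero_iff hRK']
    exact hT'0
  have hTKx : eval₂ κF x (T'.map (algebraMap R' K')) = (aeval x T : F) ^ k := by
    rw [eval₂_map, hκFc, hT', eval₂_map]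
    have : lam.comp (algebraMap R R') = algebraMap R F := RingHom.ext hlamR
    rw [this, eval₂_pow]
    rfl
  -- the relations
  have hmain : ∀ l : Fin N, ∃ (n : ℕ) (a : ℕ → F), (∀ t ∈ range (n + 1), v (a t) ≤ 1) ∧
      nabla^[n + 1] (b l) = ∑ t ∈ range (n + 1), a t • nabla^[t] (b l) := by
    intro l
    obtain ⟨n, α, q, q₂, β, hq, hq₂, hrel, hβ⟩ := exists_rel hTK
      (M.map (mapRingHom (algebraMap R' K'))) l
    have hbd := transfer hRK' vK hvK hT'0 M hPr hg' hprimeQ l n α hq hq₂ hrel β hβ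
    have hqx : eval₂ κF x q ≠ 0 := by
      rw [← v.ne_zero_iff, hgauss]
      exact vgs_ne_zero vK hq
    refine ⟨n, fun t => eval₂ κF x (α t) / eval₂ κF x q, fun t ht => ?_, ?_⟩
    · rw [map_div₀, hgauss, hgauss]
      exact (div_le_one₀ (lt_of_le_of_ne zero_le (vgs_ne_zero vK hq).symm)).mpr (hbd t ht)
    · set τ : F := (aeval x T : F) ^ k with hτ
      have hτ0 : τ ≠ 0 := pow_ne_zero _ hTx
      have hit' : ∀ i, τ ^ i • nabla^[i] (b l) = ∑ j, eval₂ κF x
          (QQ (T'.map (algebraMap R' K')) (M.map (mapRingHom (algebraMap R' K'))) i j l) • b j := by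
        intro i
        rw [hτ, ← pow_mul, hit i l]
        refine Finset.sum_congr rfl fun j _ => ?_
        rw [← QQ_map_apply, eval₂_map, hκFc]
      have h1 : eval₂ κF x q • (τ ^ (n + 1) • nabla^[n + 1] (b l)) =
          ∑ t ∈ range (n + 1), (eval₂ κF x (α t) * τ ^ (n + 1 - t)) • (τ ^ t • nabla^[t] (b l)) := by
        rw [hit', Finset.smul_sum]
        have h2 : ∀ t ∈ range (n + 1), (eval₂ κF x (α t) * τ ^ (n + 1 - t)) •
            (τ ^ t • nabla^[t] (b l)) = ∑ j, (eval₂ κF x (α t * (T'.map (algebraMap R' K')) ^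
              (n + 1 - t) * QQ (T'.map (algebraMap R' K'))
              (M.map (mapRingHom (algebraMap R' K'))) t j l)) • b j := by
          intro t _
          rw [hit', Finset.smul_sum]
          refine Finset.sum_congr rfl fun j _ => ?_
          rw [smul_smul, eval₂_mul, eval₂_mul, eval₂_pow, hTKx]
        rw [Finset.sum_congr rfl h2, Finset.sum_comm]
        refine Finset.sum_congr rfl fun j _ => ?_
        rw [smul_smul, ← eval₂_mul, hrel j, ← Finset.sum_smul]
        congr 1
        exact map_sum (eval₂RingHom κF x) _ _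
      have h3 : (eval₂ κF x q * τ ^ (n + 1)) • nabla^[n + 1] (b l) =
          (eval₂ κF x q * τ ^ (n + 1)) • ∑ t ∈ range (n + 1),
            (eval₂ κF x (α t) / eval₂ κF x q) • nabla^[t] (b l) := by
        rw [mul_smul, h1, Finset.smul_sum]
        refine Finset.sum_congr rfl fun t ht => ?_
        rw [smul_smul, smul_smul]
        congr 1
        have h4 : τ ^ (n + 1) = τ ^ (n + 1 - t) * τ ^ t := by
          rw [← pow_add]
          congr 1
          rw [mem_range] at ht
          omega
        rw [h4]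
        field_simp
      exact smul_right_injective V (mul_ne_zero hqx (pow_ne_zero _ hτ0)) h3
  choose nn aa haa hrelV using hmain
  -- the lattice
  let gen : (Σ l : Fin N, Fin (nn l + 1)) → V := fun lt => nabla^[(lt.2 : ℕ)] (b lt.1)
  let L : Submodule v.integer V := Submodule.span v.integer (Set.range gen)
  have hgen : ∀ (l : Fin N) (t : ℕ), t ∈ range (nn l + 1) → nabla^[t] (b l) ∈ L := by
    intro l t ht
    exact Submodule.subset_span ⟨⟨l, ⟨t, mem_range.mp ht⟩⟩, rfl⟩
  refine ⟨L, Submodule.fg_span (Set.finite_range _), ?_, ?_⟩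
  · intro e he
    induction he using Submodule.span_induction with
    | mem e he =>
      obtain ⟨⟨l, t⟩, rfl⟩ := he
      have h1 : nabla (gen ⟨l, t⟩) = nabla^[(t : ℕ) + 1] (b l) := by
        change nabla (nabla^[(t : ℕ)] (b l)) = _
        rw [Function.iterate_succ_apply']
      rw [h1]
      by_cases ht : (t : ℕ) + 1 < nn l + 1
      · exact hgen l _ (mem_range.mpr ht)
      · have h2 : (t : ℕ) + 1 = nn l + 1 := by
          have := t.2
          omega
        rw [h2, hrelV l]
        refine Submodule.sum_mem _ fun s hs => ?_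
        exact Submodule.smul_mem L (⟨aa l s, haa l s hs⟩ : v.integer) (hgen l s hs)
    | zero => rw [map_zero]; exact Submodule.zero_mem _
    | add u w _ _ hu hw => rw [map_add]; exact Submodule.add_mem _ hu hw
    | smul c u hu' hu =>
      have h1 : nabla (c • u) = (⟨δ c, (hvδ c).trans c.2⟩ : v.integer) • u + c • nabla u :=
        hnabla c u
      rw [h1]
      exact Submodule.add_mem _ (Submodule.smul_mem _ _ hu') (Submodule.smul_mem _ _ hu)
  · rw [← top_le_iff, ← hspan]
    refine Submodule.span_le.mpr (hEb.trans (Submodule.span_le.mpr ?_))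
    rintro _ ⟨l, rfl⟩
    exact Submodule.subset_span (hgen l 0 (mem_range.mpr (Nat.succ_pos _)))

end Pool.Agent.W77.GR
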